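import Pool.Agent.Helper42.PQ.Spec3

set_option autoImplicit false

namespace Pool.Agent.Helper72.PQ.MAG

open Pool.Agent.Helper42.PQ

/-- the Boolean check -/
def chk (d a b c e : ℕ) : Bool :=
  !(decide (7 ≤ d) && decide (1 ≤ a) && decide (1 ≤ b) && decide (1 ≤ c) && decide (1 ≤ e) &&
    decide (a + b + 1 ≤ d) && decide (c + e + 1 ≤ d) && decide (a + c + 1 ≤ d) &&
    decide (b + e + 1 ≤ d) && decide (d < a + b + c + e)) ||
  (decide (a = e) || decide (a = d - c - e) || decide (a = d - b - e) ||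
    decide (a = a + b + c + e - d) || decide (b = c) || decide (b = d - c - e) ||
    decide (b = d - a - c) || decide (b = a + b + c + e - d) || decide (d - a - b = c) ||
    decide (d - a - b = e) || decide (d - a - b = d - a - c) || decide (d - a - b = d - b - e) ||
    decide (c = d - b - e) || decide (c = a + b + c + e - d) || decide (e = d - a - c) ||
    decide (e = a + b + c + e - d) || decide (d - c - e = d - a - c) ||
    decide (d - c - e = d - b - e))

theorem chk_all : ∀ d < 9, ∀ a < 7, ∀ b < 7, ∀ c < 7, ∀ e < 7, chk d a b c e = true := by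
  decide +kernel

theorem aux (d : ℕ) (h9 : d < 9) (h7 : 7 ≤ d) (a : ℕ) (ha : a < 7) (b : ℕ) (hb : b < 7) (c : ℕ)
    (hc : c < 7) (e : ℕ) (he : e < 7) (h1 : 1 ≤ a) (h2 : 1 ≤ b) (h3 : 1 ≤ c) (h4 : 1 ≤ e)
    (h5 : a + b + 1 ≤ d) (h6 : c + e + 1 ≤ d) (h8 : a + c + 1 ≤ d) (h10 : b + e + 1 ≤ d)
    (h11 : d < a + b + c + e) :
    (a = e ∨ a = d - c - e ∨ a = d - b - e ∨ a = a + b + c + e - d ∨ b = c ∨ b = d - c - e ∨
      b = d - a - c ∨ b = a + b + c + e - d ∨ d - a - b = c ∨ d - a - b = e ∨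
      d - a - b = d - a - c ∨ d - a - b = d - b - e ∨ c = d - b - e ∨ c = a + b + c + e - d ∨
      e = d - a - c ∨ e = a + b + c + e - d ∨ d - c - e = d - a - c ∨
      d - c - e = d - b - e) := by
  have h := chk_all d h9 a ha b hb c hc e he
  unfold chk at h
  simp only [h7, h1, h2, h3, h4, h5, h6, h8, h10, h11, decide_true, Bool.and_true, Bool.not_true,
    Bool.false_or, Bool.or_eq_true, decide_eq_true_eq] at h
  simp only [or_assoc] at h
  exact h

theorem main : S_MAG := by
  intro d hd M h1 hr hc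
  have r0 := hr 0
  have r1 := hr 1
  have r2 := hr 2
  have c0 := hc 0
  have c1 := hc 1
  have c2 := hc 2
  simp only [Fin.sum_univ_three] at r0 r1 r2 c0 c1 c2
  have p00 := h1 0 0
  have p01 := h1 0 1
  have p02 := h1 0 2
  have p10 := h1 1 0
  have p11 := h1 1 1
  have p12 := h1 1 2
  have p20 := h1 2 0
  have p21 := h1 2 1
  have p22 := h1 2 2
  have key := aux d (by omega) (by omega) (M 0 0) (by omega) (M 0 1) (by omega) (M 1 0) (by omega)
    (M 1 1) (by omega) p00 p01 p10 p11 (by omega) (by omega) (by omega) (by omega) (by omega)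
  have e1 : d - M 1 0 - M 1 1 = M 1 2 := by omega
  have e2 : d - M 0 1 - M 1 1 = M 2 1 := by omega
  have e3 : M 0 0 + M 0 1 + M 1 0 + M 1 1 - d = M 2 2 := by omega
  have e4 : d - M 0 0 - M 1 0 = M 2 0 := by omega
  have e5 : d - M 0 0 - M 0 1 = M 0 2 := by omega
  rw [e1, e2, e3, e4, e5] at key
  have mk : ∀ i i' j j' : Fin 3, i ≠ i' → j ≠ j' → M i j = M i' j' →
      ∃ i i' j j', i ≠ i' ∧ j ≠ j' ∧ M i j = M i' j' :=
    fun i i' j j' a b c => ⟨i, i', j, j', a, b, c⟩
  rcases key with h | h | h | h | h | h | h | h | h | h | h | h | h | h | h | h | h | h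
  · exact mk 0 1 0 1 (by decide) (by decide) h
  · exact mk 0 1 0 2 (by decide) (by decide) h
  · exact mk 0 2 0 1 (by decide) (by decide) h
  · exact mk 0 2 0 2 (by decide) (by decide) h
  · exact mk 0 1 1 0 (by decide) (by decide) h
  · exact mk 0 1 1 2 (by decide) (by decide) h
  · exact mk 0 2 1 0 (by decide) (by decide) h
  · exact mk 0 2 1 2 (by decide) (by decide) h
  · exact mk 0 1 2 0 (by decide) (by decide) h
  · exact mk 0 1 2 1 (by decide) (by decide) h
  · exact mk 0 2 2 0 (by decide) (by decide) h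
  · exact mk 0 2 2 1 (by decide) (by decide) h
  · exact mk 1 2 0 1 (by decide) (by decide) h
  · exact mk 1 2 0 2 (by decide) (by decide) h
  · exact mk 1 2 1 0 (by decide) (by decide) h
  · exact mk 1 2 1 2 (by decide) (by decide) h
  · exact mk 1 2 2 0 (by decide) (by decide) h
  · exact mk 1 2 2 1 (by decide) (by decide) h

end Pool.Agent.Helper72.PQ.MAG
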