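import Pool.Agent.Helper42.PQ.Spec3
import Pool.Agent.Helper42.PQ.Base

set_option autoImplicit false

/-!
PQ, part T1: `k = 3`, eight variables.
-/

namespace Pool.Agent.Helper72.PQ.T1

open Finset Pool.Agent.Helper42.PQ
open Pool.Agent.Helper46.PV (sg_union sg_sdiff sg_insert sg_erase)

variable {ι : Type} [Fintype ι] [DecidableEq ι]

/-- relabelling of a grouping -/
lemma Cf_relabel {d r q : ℕ} {w : ι → ℕ} {ρ : ι → Fin q} {S : Multiset (G ι d (r + 1))}
    (h : Cf w ρ S) (e : Equiv.Perm (Fin q)) : Cf w (fun i => e (ρ i)) S := by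
  obtain ⟨T, hT, rfl⟩ := h
  refine ⟨fun j => T (e.symm j), fun j => ?_, ?_⟩
  · obtain ⟨h1, h2⟩ := hT (e.symm j)
    refine ⟨?_, h2⟩
    rw [h1]
    funext i
    have : (ρ i = e.symm j) ↔ (e (ρ i) = j) := by
      constructor
      · intro h; rw [h, Equiv.apply_symm_apply]
      · intro h; rw [← h, Equiv.symm_apply_apply]
    by_cases h : ρ i = e.symm j
    · rw [if_pos h, if_pos (this.1 h)]
    · rw [if_neg h, if_neg (fun h' => h (this.2 h'))]
  · exact (Equiv.sum_comp e.symm T).symm

/-- a triple of weight `d` -/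
def Gd (w : ι → ℕ) (d : ℕ) (A : Finset ι) : Prop := A ⊆ sp w ∧ A.card = 3 ∧ sg w A = d

/-- grouped with `A` as the class `0` -/
def Gp {d : ℕ} (w : ι → ℕ) (S : Multiset (G ι d (2 + 1))) (A : Finset ι) : Prop :=
  ∃ ρ : ι → Fin 2, cls w ρ 0 = A ∧ Cf w ρ S

lemma cls_one (w : ι → ℕ) (ρ : ι → Fin 2) : cls w ρ 1 = sp w \ cls w ρ 0 := by
  ext i
  rw [mem_cls, Finset.mem_sdiff, mem_sp, mem_cls]
  constructor
  · rintro ⟨h1, h2⟩
    refine ⟨h1, fun h => ?_⟩
    rw [h2] at h
    exact absurd h.2 (by decide)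
  · rintro ⟨h1, h2⟩
    refine ⟨h1, ?_⟩
    have h3 : ρ i ≠ 0 := fun h => h2 ⟨h1, h⟩
    omega

lemma cls_sub (w : ι → ℕ) {q : ℕ} (ρ : ι → Fin q) (j : Fin q) : cls w ρ j ⊆ sp w :=
  Finset.filter_subset _ _

lemma sg_sp (w : ι → ℕ) : sg w (sp w) = ∑ i, w i := by
  unfold Pool.Agent.Helper46.PV.sg sp
  rw [Finset.sum_filter]
  apply Finset.sum_congr rfl
  intro i _
  by_cases h : w i = 0 <;> simp [h]

variable {d : ℕ} {w : ι → ℕ}

lemma exists_Gp (hGRP : S_GRP) (hsum : ∑ i, w i = 3 * d) (hsp : (sp w).card = 8)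
    (S : Multiset (G ι d 3)) (hS : S.card = 3) (hw : Wt S = w) :
    ∃ A, Gd w d A ∧ Gp w S A := by
  obtain ⟨ρ, hρ⟩ := hGRP ι d 2 2 w S (by norm_num) (by norm_num) hw (by rw [hsp, hS])
  have hc := hρ.NG
  obtain ⟨t0, ht0, hc0, hs0⟩ := hc 0
  obtain ⟨t1, ht1, hc1, hs1⟩ := hc 1
  have h1 : (cls w ρ 1).card + (cls w ρ 0).card = 8 := by
    rw [cls_one, Finset.card_sdiff_add_card_eq_card (cls_sub w ρ 0), hsp]
  rcases (by omega : t0 = 1 ∨ t1 = 1) with h | h
  · refine ⟨cls w ρ 0, ⟨cls_sub _ _ _, by omega, by rw [hs0, h, one_mul]⟩, ρ, rfl, hρ⟩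
  · refine ⟨cls w ρ 1, ⟨cls_sub _ _ _, by omega, by rw [hs1, h, one_mul]⟩,
      fun i => Equiv.swap 0 1 (ρ i), ?_, Cf_relabel hρ _⟩
    ext i
    rw [mem_cls, mem_cls]
    have : (Equiv.swap (0 : Fin 2) 1 (ρ i) = 0) ↔ ρ i = 1 := by
      rcases (by omega : ρ i = 0 ∨ ρ i = 1) with h | h
      · rw [h]; decide
      · rw [h]; decide
    rw [this]

lemma Gp.mem (hPUR : S_PUR) {S : Multiset (G ι d 3)} {A : Finset ι} (hA : A.card = 3)
    (h : Gp w S A) : ∃ m ∈ S, m.1 = res w A := by
  obtain ⟨ρ, h0, hC⟩ := h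
  obtain ⟨m, hm, he⟩ := hPUR ι d 2 2 w ρ 0 S (by norm_num) hC (by rw [h0, hA])
  exact ⟨m, hm, by rw [he, h0]⟩

lemma real (hREAL : S_REAL) (hd : 3 ≤ d) (hsum : ∑ i, w i = 3 * d) (hsp : (sp w).card = 8)
    {A : Finset ι} (hA : Gd w d A) : ∃ S : Multiset (G ι d 3), Wt S = w ∧ Gp w S A := by
  obtain ⟨hA1, hA2, hA3⟩ := hA
  let ρ : ι → Fin 2 := fun i => if i ∈ A then 0 else 1
  have hc0 : cls w ρ 0 = A := by
    ext i
    rw [mem_cls]
    by_cases h : i ∈ A
    · have h1 := mem_sp.1 (hA1 h)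
      simp [ρ, h, h1]
    · simp [ρ, h]
  have hc1 : cls w ρ 1 = sp w \ A := by rw [cls_one, hc0]
  have hNG : NG w 2 d ρ := by
    intro j
    rcases (by omega : j = 0 ∨ j = 1) with h | h
    · rw [h]
      exact ⟨1, le_rfl, by rw [hc0, hA2], by rw [hc0, hA3, one_mul]⟩
    · rw [h]
      refine ⟨2, by norm_num, ?_, ?_⟩
      · rw [hc1, Finset.card_sdiff_of_subset hA1, hsp, hA2]
      · have := sg_sdiff (u := w) hA1
        rw [sg_sp, hsum, hA3] at this
        rw [hc1]
        omega
  obtain ⟨S, hS⟩ := hREAL ι d 2 2 w ρ le_rfl hd hNG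
  exact ⟨S, hS.Wt_eq, ρ, hc0, hS⟩

lemma node (hNODE : S_NODE) (hd : 3 ≤ d) (hsum : ∑ i, w i = 3 * d)
    {S T : Multiset (G ι d 3)} {A A' : Finset ι} (hS : Gp w S A) (hT : Gp w T A')
    (h : ∃ P x, P ⊆ sp w \ (A ∪ A') ∧ x ∈ sp w \ (A ∪ A') ∧
      Pool.Agent.Helper46.PV.Bn w 2 d P x) : Cn S T := by
  obtain ⟨P, x, hP, hx, hB⟩ := h
  obtain ⟨ρ, h0, hC⟩ := hS
  obtain ⟨κ, k0, kC⟩ := hT
  have e1 : cls w ρ 1 = sp w \ A := by rw [cls_one, h0]
  have e2 : cls w κ 1 = sp w \ A' := by rw [cls_one, k0]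
  have s1 : sp w \ (A ∪ A') ⊆ sp w \ A :=
    Finset.sdiff_subset_sdiff (Finset.Subset.refl _) Finset.subset_union_left
  have s2 : sp w \ (A ∪ A') ⊆ sp w \ A' :=
    Finset.sdiff_subset_sdiff (Finset.Subset.refl _) Finset.subset_union_right
  exact hNODE ι d 2 2 2 2 w ρ κ 1 1 (P, x) S T le_rfl hd (by rw [hsum])
    (Conn_le_two le_rfl _) hB (e1 ▸ hP.trans s1) (e1 ▸ s1 hx) (e2 ▸ hP.trans s2) (e2 ▸ s2 hx) hC kC

lemma spos (hSPOS : S_SPOS) (hd : 3 ≤ d)
    {S T : Multiset (G ι d 3)} {A A' : Finset ι} (hS : Gp w S A) (hT : Gp w T A')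
    (h : ∀ i, 2 ≤ w i → (i ∈ A ↔ i ∈ A')) : Cn S T := by
  obtain ⟨ρ, h0, hC⟩ := hS
  obtain ⟨κ, k0, kC⟩ := hT
  refine hSPOS ι d 2 2 w ρ κ S T le_rfl hd hC kC ?_
  intro i hi
  have h1 := h i hi
  rw [← h0, ← k0, mem_cls, mem_cls] at h1
  have h2 : w i ≠ 0 := by omega
  by_cases h3 : ρ i = 0
  · rw [h3, (h1.1 ⟨h2, h3⟩).2]
  · have h4 : κ i ≠ 0 := fun h => h3 (h1.2 ⟨h2, h⟩).2
    omega

lemma common (hPUR : S_PUR) (hsum : ∑ i, w i = 3 * d) (hd : 1 ≤ d)
    {S T : Multiset (G ι d 3)} (hSw : Wt S = w) (hTw : Wt T = w) {A : Finset ι} (hA : A.card = 3)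
    (hS : Gp w S A) (m : G ι d 3) (hm : m ∈ T) (hmA : m.1 = res w A) : Cn S T := by
  obtain ⟨m', hm', he⟩ := hS.mem hPUR hA
  have : m' = m := Subtype.ext (he.trans hmA.symm)
  subst this
  exact Cn.of_common hm' hm (card_of_Wt hd hSw hsum) (card_of_Wt hd hTw hsum) hSw hTw
    (Conn_le_two le_rfl _)

lemma sum_res (A : Finset ι) : ∑ i, res w A i = sg w A := by
  unfold res Pool.Agent.Helper46.PV.sg
  rw [Finset.sum_ite_mem, Finset.univ_inter]

lemma gen_res (A : Finset ι) (hA : A.card ≤ 3) (h : sg w A = d) : ∃ m : G ι d 3, m.1 = res w A := by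
  apply mkG _ (by rw [sum_res, h]) A hA
  intro i hi
  unfold res
  rw [if_neg hi]

lemma disj (hPUR : S_PUR) (hsum : ∑ i, w i = 3 * d) (hd : 1 ≤ d) (hsp : (sp w).card = 8)
    {S T : Multiset (G ι d 3)} (hSw : Wt S = w) (hTw : Wt T = w) {A A' : Finset ι}
    (hA : Gd w d A) (hA' : Gd w d A') (hS : Gp w S A) (hT : Gp w T A') (hd0 : Disjoint A A') :
    Cn S T := by
  have hsub : A ∪ A' ⊆ sp w := Finset.union_subset hA.1 hA'.1
  have hcu : (A ∪ A').card = 6 := by
    rw [Finset.card_union_of_disjoint hd0, hA.2.1, hA'.2.1]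
  have hc : (sp w \ (A ∪ A')).card = 2 := by
    rw [Finset.card_sdiff_of_subset hsub, hsp, hcu]
  have hs : sg w (sp w \ (A ∪ A')) = d := by
    have h1 := sg_sdiff (u := w) hsub
    rw [sg_sp, hsum, sg_union w hd0, hA.2.2, hA'.2.2] at h1
    omega
  obtain ⟨a, ha⟩ := gen_res (d := d) (w := w) A (by rw [hA.2.1]) hA.2.2
  obtain ⟨b, hb⟩ := gen_res (d := d) (w := w) A' (by rw [hA'.2.1]) hA'.2.2
  obtain ⟨c, hc'⟩ := gen_res (d := d) (w := w) (sp w \ (A ∪ A')) (by rw [hc]; norm_num) hs
  have hU : Wt (a ::ₘ b ::ₘ ({c} : Multiset (G ι d 3))) = w := by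
    rw [Wt_cons, Wt_cons, Wt_singleton, ha, hb, hc']
    funext i
    simp only [Pi.add_apply, res, Finset.mem_sdiff, Finset.mem_union, mem_sp]
    have hdis : i ∈ A → i ∉ A' := fun h h' => Finset.disjoint_left.1 hd0 h h'
    by_cases h1 : i ∈ A
    · simp [h1, hdis h1]
    · by_cases h2 : i ∈ A'
      · simp [h1, h2]
      · by_cases h3 : w i = 0
        · simp [h1, h2, h3]
        · simp [h1, h2, h3]
  refine (common hPUR hsum hd hSw hU hA.2.1 hS a (Multiset.mem_cons_self _ _) ha).trans ?_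
  exact (common hPUR hsum hd hTw hU hA'.2.1 hT b (by simp) hb).symm

/-- two common elements -/
lemma two (hNODE : S_NODE) (hNOD : S_NOD) (h7 : 7 ≤ d) (h9 : d ≤ 9) (hsum : ∑ i, w i = 3 * d)
    (hsp : (sp w).card = 8)
    {S T : Multiset (G ι d 3)} {A A' : Finset ι} (hA : Gd w d A) (hA' : Gd w d A')
    (hS : Gp w S A) (hT : Gp w T A') (hc : (A ∩ A').card = 2) : Cn S T := by
  apply node hNODE (by omega) hsum hS hT
  have hsub : A ∪ A' ⊆ sp w := Finset.union_subset hA.1 hA'.1
  have hcu : (A ∪ A').card = 4 := by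
    have := Finset.card_union_add_card_inter A A'
    rw [hc, hA.2.1, hA'.2.1] at this
    omega
  have hD : (sp w \ (A ∪ A')).card = 4 := by
    rw [Finset.card_sdiff_of_subset hsub, hsp, hcu]
  have h1 := sg_sdiff (u := w) hsub
  rw [sg_sp, hsum] at h1
  -- the element of `A' \ A`
  have h2 : (A' \ A).card = 1 := by
    have := Finset.card_sdiff_add_card_inter A' A
    rw [Finset.inter_comm, hc, hA'.2.1] at this
    omega
  obtain ⟨y, hy⟩ := Finset.card_eq_one.1 h2
  have h3 : sg w (A ∪ A') = d + w y := by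
    have e : A ∪ A' = A ∪ (A' \ A) := (Finset.union_sdiff_self_eq_union).symm
    rw [e, sg_union w (Finset.disjoint_sdiff), hA.2.2, hy]
    simp [Pool.Agent.Helper46.PV.sg]
  have h4 : w y + sg w (A' ∩ A) = d := by
    have h5 := sg_sdiff (u := w) (Finset.inter_subset_left : A' ∩ A ⊆ A')
    rw [hA'.2.2, Finset.sdiff_inter_self_left, hy] at h5
    simpa [Pool.Agent.Helper46.PV.sg] using h5
  have h5 : 2 ≤ sg w (A' ∩ A) := by
    have : (A' ∩ A).card • 1 ≤ ∑ i ∈ A' ∩ A, w i := by
      apply Finset.card_nsmul_le_sum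
      intro i hi
      have := mem_sp.1 (hA'.1 (Finset.mem_inter.1 hi).1)
      omega
    rw [Finset.inter_comm, hc] at this
    rw [Finset.inter_comm A' A]
    exact this
  apply hNOD ι w d _ (by omega)
  · rw [hD]; omega
  · rw [hD]; omega

theorem main (hGRP : S_GRP) (hREAL : S_REAL) (hSPOS : S_SPOS) (hNODE : S_NODE) (hPUR : S_PUR)
    (hNOD : S_NOD) : S_T1 := by
  intro ι _ _ d w h7 h9 hsum hsp S T hSc hTc hSw hTw
  obtain ⟨A, hA, hSA⟩ := exists_Gp hGRP hsum hsp S hSc hSw
  obtain ⟨A', hA', hTA⟩ := exists_Gp hGRP hsum hsp T hTc hTw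
  have hle : (A ∩ A').card ≤ 3 := by
    rw [← hA.2.1]; exact Finset.card_le_card Finset.inter_subset_left
  rcases (by omega : (A ∩ A').card = 0 ∨ (A ∩ A').card = 1 ∨ (A ∩ A').card = 2 ∨
    (A ∩ A').card = 3) with hc | hc | hc | hc
  · refine disj hPUR hsum (by omega) hsp hSw hTw hA hA' hSA hTA ?_
    rw [Finset.disjoint_iff_inter_eq_empty]
    exact Finset.card_eq_zero.1 hc
  · obtain ⟨u, hu⟩ := Finset.card_eq_one.1 hc
    have huA : u ∈ A := (Finset.mem_inter.1 (by rw [hu]; exact Finset.mem_singleton_self u)).1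
    have huA' : u ∈ A' := (Finset.mem_inter.1 (by rw [hu]; exact Finset.mem_singleton_self u)).2
    have honly : ∀ i, i ∈ A → i ∈ A' → i = u := fun i h1 h2 => by
      have : i ∈ A ∩ A' := Finset.mem_inter.2 ⟨h1, h2⟩
      rw [hu] at this
      exact Finset.mem_singleton.1 this
    have hsub : A ∪ A' ⊆ sp w := Finset.union_subset hA.1 hA'.1
    have hcu : (A ∪ A').card = 5 := by
      have := Finset.card_union_add_card_inter A A'
      rw [hc, hA.2.1, hA'.2.1] at this
      omega
    have hD : (sp w \ (A ∪ A')).card = 3 := by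
      rw [Finset.card_sdiff_of_subset hsub, hsp, hcu]
    have h1 := sg_sdiff (u := w) hsub
    rw [sg_sp, hsum] at h1
    have h2 : sg w (A ∪ A') + w u = 2 * d := by
      have e : A ∪ A' = A ∪ (A' \ A) := (Finset.union_sdiff_self_eq_union).symm
      have h5 := sg_sdiff (u := w) (Finset.inter_subset_left : A' ∩ A ⊆ A')
      rw [Finset.inter_comm, hu] at h5
      have e2 : A' \ {u} = A' \ A := by
        rw [← hu, Finset.inter_comm, Finset.sdiff_inter_self_left]
      rw [e2, hA'.2.2] at h5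
      have e3 : sg w {u} = w u := by simp [Pool.Agent.Helper46.PV.sg]
      rw [e3] at h5
      rw [e, sg_union w (Finset.disjoint_sdiff), hA.2.2]
      omega
    by_cases hu2 : 2 * w u < d + 3
    · apply node hNODE (by omega) hsum hSA hTA
      apply hNOD ι w d _ (by omega)
      · rw [hD]; omega
      · rw [hD]; omega
    · -- the elements
      have hAe : (A.erase u).card = 2 := by
        rw [Finset.card_erase_of_mem huA, hA.2.1]
      have hAe' : (A'.erase u).card = 2 := by
        rw [Finset.card_erase_of_mem huA', hA'.2.1]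
      obtain ⟨x1, x2, hx12, hx⟩ := Finset.card_eq_two.1 hAe
      obtain ⟨y1, y2, hy12, hy⟩ := Finset.card_eq_two.1 hAe'
      have hxs : w u + (w x1 + w x2) = d := by
        have := sg_erase (u := w) huA
        rw [hx, hA.2.2] at this
        simpa [Pool.Agent.Helper46.PV.sg, Finset.sum_pair hx12] using this
      have hys : w u + (w y1 + w y2) = d := by
        have := sg_erase (u := w) huA'
        rw [hy, hA'.2.2] at this
        simpa [Pool.Agent.Helper46.PV.sg, Finset.sum_pair hy12] using this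
      have mx1 : x1 ∈ A.erase u := by rw [hx]; simp
      have mx2 : x2 ∈ A.erase u := by rw [hx]; simp
      have my1 : y1 ∈ A'.erase u := by rw [hy]; simp
      have my2 : y2 ∈ A'.erase u := by rw [hy]; simp
      have px1 := mem_sp.1 (hA.1 (Finset.mem_of_mem_erase mx1))
      have px2 := mem_sp.1 (hA.1 (Finset.mem_of_mem_erase mx2))
      have py1 := mem_sp.1 (hA'.1 (Finset.mem_of_mem_erase my1))
      have py2 := mem_sp.1 (hA'.1 (Finset.mem_of_mem_erase my2))
      have hAmem : ∀ i, i ∈ A ↔ i = u ∨ i = x1 ∨ i = x2 := by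
        intro i
        have : A = insert u (A.erase u) := (Finset.insert_erase huA).symm
        rw [this, hx]
        simp
      have hAmem' : ∀ i, i ∈ A' ↔ i = u ∨ i = y1 ∨ i = y2 := by
        intro i
        have : A' = insert u (A'.erase u) := (Finset.insert_erase huA').symm
        rw [this, hy]
        simp
      by_cases hall : w x1 = 1 ∧ w x2 = 1
      · apply spos hSPOS (by omega) hSA hTA
        intro i hi
        rw [hAmem, hAmem']
        obtain ⟨a1, a2⟩ := hall
        have b1 : w y1 = 1 := by omega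
        have b2 : w y2 = 1 := by omega
        constructor
        · rintro (h | h | h)
          · exact Or.inl h
          · rw [h] at hi; omega
          · rw [h] at hi; omega
        · rintro (h | h | h)
          · exact Or.inl h
          · rw [h] at hi; omega
          · rw [h] at hi; omega
      · -- `d = 9`, weights `6, 1, 2`
        have hcase : ∃ x x' y y', x ∈ A.erase u ∧ x' ∈ A.erase u ∧ x ≠ x' ∧ y ∈ A'.erase u ∧
            y' ∈ A'.erase u ∧ y ≠ y' ∧ w x = 1 ∧ w x' = 2 ∧ w y = 1 ∧ w y' = 2 := by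
          have : d = 9 ∧ w u = 6 ∧ w x1 + w x2 = 3 ∧ w y1 + w y2 = 3 := by omega
          rcases (by omega : (w x1 = 1 ∧ w x2 = 2) ∨ (w x1 = 2 ∧ w x2 = 1)) with a | a <;>
          rcases (by omega : (w y1 = 1 ∧ w y2 = 2) ∨ (w y1 = 2 ∧ w y2 = 1)) with b | b
          · exact ⟨x1, x2, y1, y2, mx1, mx2, hx12, my1, my2, hy12, a.1, a.2, b.1, b.2⟩
          · exact ⟨x1, x2, y2, y1, mx1, mx2, hx12, my2, my1, hy12.symm, a.1, a.2, b.2, b.1⟩
          · exact ⟨x2, x1, y1, y2, mx2, mx1, hx12.symm, my1, my2, hy12, a.2, a.1, b.1, b.2⟩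
          · exact ⟨x2, x1, y2, y1, mx2, mx1, hx12.symm, my2, my1, hy12.symm, a.2, a.1, b.2, b.1⟩
        have hd9 : d = 9 ∧ w u = 6 := by omega
        obtain ⟨x, x', y, y', hx1, hx2, hxx, hy1, hy2, hyy, wx, wx', wy, wy'⟩ := hcase
        have hxu : x ≠ u := (Finset.mem_erase.1 hx1).1
        have hx'u : x' ≠ u := (Finset.mem_erase.1 hx2).1
        have hyu : y ≠ u := (Finset.mem_erase.1 hy1).1
        have hxA := (Finset.mem_erase.1 hx1).2
        have hx'A := (Finset.mem_erase.1 hx2).2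
        have hyA := (Finset.mem_erase.1 hy1).2
        have hx'A' : x' ∉ A' := fun h => hx'u (honly x' hx'A h)
        have hxA' : x ∉ A' := fun h => hxu (honly x hxA h)
        have hyAn : y ∉ A := fun h => hyu (honly y h hyA)
        have hx'y : x' ≠ y := fun h => hx'A' (h ▸ hyA)
        set B : Finset ι := {u, x', y} with hB
        have hBmem : ∀ i, i ∈ B ↔ i = u ∨ i = x' ∨ i = y := by
          intro i; simp [hB]
        have hBc : B.card = 3 := Finset.card_eq_three.2
          ⟨u, x', y, hx'u.symm, hyu.symm, hx'y, rfl⟩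
        have hBs : sg w B = d := by
          have : sg w B = w u + (w x' + w y) := by
            unfold Pool.Agent.Helper46.PV.sg
            rw [hB, Finset.sum_insert (by simp [hx'u.symm, hyu.symm]),
              Finset.sum_insert (by simp [hx'y]), Finset.sum_singleton]
          rw [this]
          omega
        have hBG : Gd w d B := by
          refine ⟨?_, hBc, hBs⟩
          intro i hi
          rcases (hBmem i).1 hi with h | h | h
          · rw [h]; exact hA.1 huA
          · rw [h]; exact hA.1 hx'A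
          · rw [h]; exact hA'.1 hyA
        obtain ⟨U, hUw, hUB⟩ := real hREAL (by omega) hsum hsp hBG
        refine Cn.trans (T := U) ?_ ?_
        · apply spos hSPOS (by omega) hSA hUB
          intro i hi
          rw [hBmem]
          constructor
          · intro h
            by_cases h1 : i = u
            · exact Or.inl h1
            · have : i ∈ A.erase u := Finset.mem_erase.2 ⟨h1, h⟩
              rw [hx] at this hx1 hx2
              simp only [Finset.mem_insert, Finset.mem_singleton] at this hx1 hx2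
              have h3 : i = x ∨ i = x' := by
                rcases this with a | a <;> rcases hx1 with b | b <;> rcases hx2 with c | c
                · exact absurd (b.trans c.symm) hxx
                · exact Or.inl (a.trans b.symm)
                · exact Or.inr (a.trans c.symm)
                · exact absurd (b.trans c.symm) hxx
                · exact absurd (b.trans c.symm) hxx
                · exact Or.inr (a.trans c.symm)
                · exact Or.inl (a.trans b.symm)
                · exact absurd (b.trans c.symm) hxx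
              rcases h3 with h3 | h3
              · rw [h3] at hi; omega
              · exact Or.inr (Or.inl h3)
          · rintro (h | h | h)
            · rw [h]; exact huA
            · rw [h]; exact hx'A
            · rw [h] at hi; omega
        · apply two hNODE hNOD h7 h9 hsum hsp hBG hA' hUB hTA
          have : B ∩ A' = {u, y} := by
            ext i
            rw [Finset.mem_inter, hBmem]
            simp only [Finset.mem_insert, Finset.mem_singleton]
            constructor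
            · rintro ⟨h | h | h, h'⟩
              · exact Or.inl h
              · exact absurd (h ▸ h') hx'A'
              · exact Or.inr h
            · rintro (h | h)
              · exact ⟨Or.inl h, h ▸ huA'⟩
              · exact ⟨Or.inr (Or.inr h), h ▸ hyA⟩
          rw [this, Finset.card_pair hyu.symm]
  · exact two hNODE hNOD h7 h9 hsum hsp hA hA' hSA hTA hc
  · have hAA : A = A' := by
      have h1 : A ∩ A' = A := Finset.eq_of_subset_of_card_le Finset.inter_subset_left
        (by rw [hc, hA.2.1])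
      have h2 : A ∩ A' = A' := Finset.eq_of_subset_of_card_le Finset.inter_subset_right
        (by rw [hc, hA'.2.1])
      rw [← h1, h2]
    subst hAA
    obtain ⟨m, hm, he⟩ := hTA.mem hPUR hA.2.1
    exact common hPUR hsum (by omega) hSw hTw hA.2.1 hSA m hm he

end Pool.Agent.Helper72.PQ.T1
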